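import Pool.Agent.W555.KS.Core
import Pool.Agent.W289.KS.EmbS
import Pool.Agent.W386.KS.Span
import Pool.Agent.W928.KS.Bal2
import Pool.Agent.W932.KS.Bal0
import Pool.Agent.W636.KS.Bal

/-!
# Balanced shifting of complexes embeddable in `S^(2δ)`

If a balanced `δ`-dimensional simplicial complex `K` embeds topologically in the sphere `S^(2δ)`,
then its balanced shifting, with respect to any `(2, ..., 2)`-admissible order, does not contain
the join of `δ + 1` copies of three points.

The vertex set is `Fin n`, and the total order `<` of the problem is the order of `Fin n`.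
-/

set_option autoImplicit false

namespace Pool.Agent.Results.MP_55fadc_co.BalancedShifting

open Finset MvPolynomial

/-- simplicial complex with vertices among `0, ..., n-1`: a family of finsets containing the
empty set and closed under taking subsets -/
def IsComplex {n : ℕ} (K : Finset (Finset (Fin n))) : Prop :=
  ∅ ∈ K ∧ ∀ σ ∈ K, ∀ τ : Finset (Fin n), τ ⊆ σ → τ ∈ K

/-- the geometric realization, in barycentric coordinates -/
def realization {n : ℕ} (K : Finset (Finset (Fin n))) : Set (Fin n → ℝ) :=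
  {x | (∀ i, 0 ≤ x i) ∧ ∑ i, x i = 1 ∧ ∃ σ ∈ K, ∀ i, i ∉ σ → x i = 0}

/-- topologically embeddable in the unit sphere of `ℝ^m`, that is in `S^(m-1)` -/
def EmbedsInUnitSphere {n : ℕ} (K : Finset (Finset (Fin n))) (m : ℕ) : Prop :=
  ∃ f : realization K → Metric.sphere (0 : EuclideanSpace ℝ (Fin m)) 1, Topology.IsEmbedding f

/-- the complex is balanced with the `δ + 1` colour classes `κ⁻¹ i`: no edge inside a class -/
def Balanced {n δ : ℕ} (K : Finset (Finset (Fin n))) (κ : Fin n → Fin (δ + 1)) : Prop :=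
  ∀ u v : Fin n, u ≠ v → ({u, v} : Finset (Fin n)) ∈ K → κ u ≠ κ v

/-- number of smaller vertices of the same colour -/
def crank {n δ : ℕ} (κ : Fin n → Fin (δ + 1)) (v : Fin n) : ℕ :=
  (univ.filter (fun w => κ w = κ v ∧ w < v)).card

/-- the order is `(2, ..., 2)`-admissible: the vertices which are among the two smallest of their
colour class form an initial segment -/
def Admissible {n δ : ℕ} (κ : Fin n → Fin (δ + 1)) : Prop :=
  ∀ u v : Fin n, v < u → crank κ u < 2 → crank κ v < 2

/-- the Stanley-Reisner ideal, generated by the squarefree monomials of the non-faces -/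
noncomputable def srIdeal {n : ℕ} (k : Type*) [Field k] (K : Finset (Finset (Fin n))) :
    Ideal (MvPolynomial (Fin n) k) :=
  Ideal.span {p | ∃ σ : Finset (Fin n), σ ∉ K ∧ p = ∏ v ∈ σ, X v}

/-- the linear form `θ_v = ∑_w Θ_vw x_w`, sum over the vertices `w` of the colour of `v` -/
noncomputable def theta {n δ : ℕ} (κ : Fin n → Fin (δ + 1)) {k : Type*} [Field k]
    (Θ : Fin n × Fin n → k) (v : Fin n) : MvPolynomial (Fin n) k :=
  ∑ w ∈ univ.filter (fun w => κ w = κ v), C (Θ (v, w)) * X w

/-- lexicographic order on sets of vertices: the smallest element of the symmetric difference is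
in `F` -/
def LexLT {n : ℕ} (F G : Finset (Fin n)) : Prop :=
  ∃ x ∈ F, x ∉ G ∧ ∀ y, y < x → (y ∈ F ↔ y ∈ G)

/-- balanced shifting with the matrix `Θ`: a set `F` with at most one vertex of each colour is
kept iff `θ_F`, the product of the `θ_v`, `v ∈ F`, is not in the span of the `θ_G` with `G`
lexicographically smaller and of the same colours, in the Stanley-Reisner ring -/
def shiftWith {n δ : ℕ} (κ : Fin n → Fin (δ + 1)) (k : Type*) [Field k] (Θ : Fin n × Fin n → k)
    (K : Finset (Finset (Fin n))) : Set (Finset (Fin n)) :=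
  {F | Set.InjOn κ (F : Set (Fin n)) ∧
    (Ideal.Quotient.mk (srIdeal k K) (∏ v ∈ F, theta κ Θ v)) ∉
      Submodule.span k {y | ∃ G : Finset (Fin n), Set.InjOn κ (G : Set (Fin n)) ∧
        G.image κ = F.image κ ∧ LexLT G F ∧
        y = Ideal.Quotient.mk (srIdeal k K) (∏ v ∈ G, theta κ Θ v)}}

/-- the balanced shifting `K^b`: the sets which are kept for generic `Θ`, that is for all `Θ`
outside some proper hypersurface -/
def balancedShift {n δ : ℕ} (κ : Fin n → Fin (δ + 1)) (k : Type*) [Field k]
    (K : Finset (Finset (Fin n))) : Set (Finset (Fin n)) :=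
  {F | ∃ P : MvPolynomial (Fin n × Fin n) k, P ≠ 0 ∧
    ∀ Θ : Fin n × Fin n → k, eval Θ P ≠ 0 → F ∈ shiftWith κ k Θ K}

/-- `Q` contains the join of `m` copies of three points -/
def ContainsJoin {n : ℕ} (m : ℕ) (Q : Set (Finset (Fin n))) : Prop :=
  ∃ e : Fin m × Fin 3 → Fin n, Function.Injective e ∧
    ∀ s : Fin m → Fin 3, univ.image (fun i => e (i, s i)) ∈ Q

/-- check of the definition: if the shifting with `Θ` is the same for all `Θ` outside a proper
hypersurface, then this is `balancedShift` -/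
theorem balancedShift_eq {n δ : ℕ} (κ : Fin n → Fin (δ + 1)) (k : Type*) [Field k] [Infinite k]
    (K : Finset (Finset (Fin n))) (Q : Set (Finset (Fin n)))
    (P : MvPolynomial (Fin n × Fin n) k) (hP : P ≠ 0)
    (h : ∀ Θ : Fin n × Fin n → k, eval Θ P ≠ 0 → shiftWith κ k Θ K = Q) :
    balancedShift κ k K = Q := by
  ext F
  constructor
  · rintro ⟨P', hP', h'⟩
    obtain ⟨Θ, hΘ⟩ : ∃ Θ : Fin n × Fin n → k, eval Θ (P * P') ≠ 0 := by
      by_contra hcon
      push Not at hcon
      apply mul_ne_zero hP hP'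
      apply MvPolynomial.funext
      intro g
      rw [hcon g, map_zero]
    rw [map_mul] at hΘ
    rw [← h Θ (left_ne_zero_of_mul hΘ)]
    exact h' Θ (right_ne_zero_of_mul hΘ)
  · intro hF
    exact ⟨P, hP, fun Θ hΘ => by rw [h Θ hΘ]; exact hF⟩

theorem coneEmb {n m : ℕ} (L : Finset (Finset (Fin n))) (hL : IsComplex L)
    (hemb : EmbedsInUnitSphere L m) : W555.KS.ConeEmb L m := by
  classical
  apply W289.KS.embS n m L hL
  obtain ⟨f, hf⟩ := hemb
  refine ⟨fun x => if hx : x ∈ realization L then (f ⟨x, hx⟩ : EuclideanSpace ℝ (Fin m)) else 0,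
    ?_, ?_, ?_⟩
  · rw [continuousOn_iff_continuous_domRestrict]
    have h0 : Continuous (fun x : realization L => (f x : EuclideanSpace ℝ (Fin m))) :=
      continuous_subtype_val.comp hf.continuous
    refine h0.congr ?_
    intro x
    have hx : (x : Fin n → ℝ) ∈ realization L := x.2
    show (f x : EuclideanSpace ℝ (Fin m)) = if hx : (x : Fin n → ℝ) ∈ realization L then
      (f ⟨(x : Fin n → ℝ), hx⟩ : EuclideanSpace ℝ (Fin m)) else 0
    rw [dif_pos hx]
  · intro x hx y hy hxy
    have hx' : x ∈ realization L := hx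
    have hy' : y ∈ realization L := hy
    simp only at hxy
    rw [dif_pos hx', dif_pos hy'] at hxy
    have h1 := hf.injective (Subtype.ext hxy)
    exact congrArg Subtype.val h1
  · intro x h1 h2 h3
    have hx' : x ∈ realization L := ⟨h1, h2, h3⟩
    simp only
    rw [dif_pos hx']
    exact mem_sphere_zero_iff_norm.1 (f ⟨x, hx'⟩).2

/-- the balanced shifting of a balanced complex with `δ + 1` colours which embeds in `S^(2δ)` does
not contain the join of `δ + 1` copies of three points; also for the shifting with every matrix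
outside some hypersurface -/
theorem result (k : Type) [Field k] [CharZero k] (n δ : ℕ) (K : Finset (Finset (Fin n)))
    (κ : Fin n → Fin (δ + 1)) (hK : IsComplex K) (hbal : Balanced K κ)
    (hemb : EmbedsInUnitSphere K (2 * δ + 1)) (hadm : Admissible κ) :
    ¬ ContainsJoin (δ + 1) (balancedShift κ k K) ∧
    ∃ P : MvPolynomial (Fin n × Fin n) k, P ≠ 0 ∧ ∀ Θ : Fin n × Fin n → k, eval Θ P ≠ 0 →
      ¬ ContainsJoin (δ + 1) (shiftWith κ k Θ K) := by
  classical
  have hE : W555.KS.ConeEmb K (2 * δ + 1) := coneEmb K hK hemb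
  have hb2 : W555.KS.StBal2 :=
    W928.KS.bal2 W357.KS.Fan.fan (W555.KS.t1e' W555.KS.halg') W646.KS.ind
  have hb0 : W555.KS.StBal0 := W932.KS.Bal0.bal0 W386.KS.span hb2
  have h := W636.KS.bal hb0 k n δ K κ hK hbal hE hadm
  obtain ⟨P, hP, hPΘ⟩ := h
  have h2 : ∀ Θ : Fin n × Fin n → k, eval Θ P ≠ 0 →
      ¬ ContainsJoin (δ + 1) (shiftWith κ k Θ K) := hPΘ
  refine ⟨?_, P, hP, h2⟩
  rintro ⟨e, he, hs⟩
  choose Q hQ0 hQ using hs
  have : Infinite k := CharZero.infinite k
  obtain ⟨Θ, hΘ⟩ : ∃ Θ : Fin n × Fin n → k, eval Θ (P * ∏ s, Q s) ≠ 0 := by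
    by_contra hcon
    push Not at hcon
    apply mul_ne_zero hP (prod_ne_zero_iff.2 (fun s _ => hQ0 s))
    apply MvPolynomial.funext
    intro g
    rw [hcon g, map_zero]
  rw [map_mul, map_prod] at hΘ
  apply h2 Θ (left_ne_zero_of_mul hΘ)
  refine ⟨e, he, fun s => hQ s Θ ?_⟩
  exact prod_ne_zero_iff.1 (right_ne_zero_of_mul hΘ) s (mem_univ s)

end Pool.Agent.Results.MP_55fadc_co.BalancedShifting
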